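import Pool.Agent.Y719.LP.Main
import Pool.Agent.Y719.LP.General

set_option autoImplicit false

/-! # Prime gaps of record length around the values of logarithmic power functions of any order

Let `f t = ∑ a_{x,y} t ^ x (log t) ^ y` be a finite sum with real exponents `x, y` which tends to
infinity and has at least one term with `x > 0` which is not a monomial of integral degree: for
instance `t log t`, `t / log t`, `t ^ 2 + √t`, `√2 t ^ 3 + t / log t`, `t ^ (3/2) + √5 t`.  Then for
all large `M` some `n` in `(M, M + M ^ (1 - δ)]` has no prime within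
`κ log M (log₂ M)² log₄ M / (log₃ M)²` of `f n`.  The starting result `NonIntegralOrder` of this
folder is the case of generalised polynomials whose leading exponent is not an integer.

The second part is the general theorem for smooth functions `f`: some derivative `f^(k+1)` is
monotone, of constant sign and between `t ^ (-b1)` and `t ^ (-b2)` with `0 < b2`, `b1 < k + 1`,
`b1 < b2 + 1`.  (The starting library has `b1 < 1`.)

Proof: `k` Weyl - van der Corput differencing steps with shifts up to a power `M ^ h`, where `h` is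
chosen in terms of `b1`, `b2`, and the mean over the shifts of the inequality of Kusmin and Landau.
The derivatives of high order do not see polynomials, whatever their coefficients are; therefore no
Diophantine condition is needed.  The covering sieve of `MP_3bc45c_nt.RecordGaps` (helper256's
team), in the form of `Pool/Agent/TH915/PW`, does the rest. -/

namespace Pool.Agent.Results.MP_028722_nt.LogPowerSequences

open Filter

/-- The length of the record gaps: `log x (log₂ x)² log₄ x / (log₃ x)²`. -/
noncomputable def recLen (x : ℝ) : ℝ :=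
  Real.log x * (Real.log (Real.log x)) ^ 2 * Real.log (Real.log (Real.log (Real.log x))) /
    (Real.log (Real.log (Real.log x))) ^ 2

/-- The values `f n`, `n : ℕ`, have record gaps around them in all short intervals: for some
`κ, δ > 0` and all large `M` some `n` in `(M, M + M ^ (1 - δ)]` has no prime within `κ recLen M` of
`f n`. -/
def RecordGapsAround (f : ℝ → ℝ) : Prop :=
  ∃ κ : ℝ, 0 < κ ∧ ∃ δ : ℝ, 0 < δ ∧ ∃ M₀ : ℝ, ∀ M : ℝ, M₀ ≤ M → ∃ n : ℕ, M < n ∧
    (n : ℝ) ≤ M + M ^ (1 - δ) ∧ ∀ q : ℕ, q.Prime → κ * recLen M < |(q : ℝ) - f n|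

/-- Record gaps around the values of logarithmic power functions which are not polynomials up to
terms of order zero, and around the values of smooth functions. -/
theorem result :
    (∀ (F : Finset (ℝ × ℝ)) (a : ℝ × ℝ → ℝ),
      Tendsto (fun t : ℝ => ∑ z ∈ F, a z * t ^ z.1 * (Real.log t) ^ z.2) atTop atTop →
      (∃ z ∈ F, a z ≠ 0 ∧ 0 < z.1 ∧ ((∀ m : ℕ, z.1 ≠ m) ∨ z.2 ≠ 0)) →
      RecordGapsAround (fun t => ∑ z ∈ F, a z * t ^ z.1 * (Real.log t) ^ z.2)) ∧
    (∀ (k : ℕ) (s b1 b2 g t₀ : ℝ) (φ : ℕ → ℝ → ℝ), s = 1 ∨ s = -1 → 0 < b2 → b1 < k + 1 →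
      b1 < b2 + 1 → 0 < g → (∀ m ≤ k + 1, ∀ t, t₀ ≤ t → HasDerivAt (φ m) (φ (m + 1) t) t) →
      (∀ t, t₀ ≤ t → t ^ (-b1) ≤ s * φ (k + 1) t ∧ s * φ (k + 1) t ≤ t ^ (-b2) ∧
        s * φ (k + 2) t ≤ 0 ∧ t ^ g ≤ φ 0 t) →
      RecordGapsAround (φ 0)) := by
  refine ⟨fun F a hinf hterm => Pool.Agent.Y719.LP.logpower_main F a hinf hterm, ?_⟩
  intro k s b1 b2 g t₀ φ hs hb2 hb1 hb hg hder h
  exact Pool.Agent.Y719.LP.smooth_three k s hs b1 b2 g hb2 hb1 hb hg φ t₀ hder
    (fun t ht => (h t ht).1) (fun t ht => (h t ht).2.1) (fun t ht => (h t ht).2.2.1)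
    (fun t ht => (h t ht).2.2.2)

end Pool.Agent.Results.MP_028722_nt.LogPowerSequences
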