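import Pool.Agent.Y824.RunTop

set_option autoImplicit false

/-!
# Intervals that are prime-free together with all their dilates by `1/m`, `m ≤ M`

A run of consecutive integers in which every `k` has all its prime factors smaller than `k / M`; equivalently no
prime lies in the intervals `(n/m, (n+W)/m]`, `1 ≤ m ≤ M`. For `M = 1` this is a prime-free interval, and the first
bound is the record of the starting files. The bounds are uniform for `1 ≤ M ≤ X^c` and hold inside every interval
`(z, z + X]`.

For `M ≥ √(log X)` the proof is a version of the covering theorem of `Pool.Agent.H256R2.SC` with a lower cutoff `y₁`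
for the sieving primes (`Pool.Agent.Y824.cov_cut`: one can cover `c (log X/log y₁) log (log X/log y₁)` integers by the
primes above `y₁`). For `M` below `log X` the small primes are used first: the start of the run is divisible by
`⌊(log y)²⌋! ∏ p`, so that `k` with a divisor `d > M` of that number is done, and the rest is
sieved greedily by the primes above `M`.
-/

namespace Pool.Agent.Results.MP_028722_nt.PrimeFreeDilates

/-- Some `(n, n + W]` inside `(z, z + X]`, `n > z`, has the following properties. For every integer `k` in it every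
prime factor `q` of `k` has `M q < k`. For every integer `m` with `1 ≤ m ≤ M` the interval `(n/m, (n + W)/m]`
contains no prime. -/
def Run (z : ℕ) (X M W : ℝ) : Prop :=
  ∃ n : ℕ, z < n ∧ (n : ℝ) + W ≤ z + X ∧
    (∀ k : ℕ, n < k → (k : ℝ) ≤ n + W → ∀ q : ℕ, q.Prime → q ∣ k → M * q < k) ∧
    ∀ m : ℕ, 1 ≤ m → (m : ℝ) ≤ M → ∀ q : ℕ, q.Prime → ¬ ((n : ℝ) / m < q ∧ (q : ℝ) ≤ (n + W) / m)

theorem run_of {z : ℕ} {X M W : ℝ} (h : Pool.Agent.Y824.Run z X M W) : Run z X M W := by
  obtain ⟨n, h1, h2, h3⟩ := h
  refine ⟨n, h1, h2, h3, fun m hm1 hmM q hq h4 => ?_⟩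
  have hm0 : (0 : ℝ) < m := by exact_mod_cast hm1
  have hq0 : (0 : ℝ) < q := by exact_mod_cast hq.pos
  have h5 := (div_lt_iff₀ hm0).1 h4.1
  have h6 := (le_div_iff₀ hm0).1 h4.2
  have h7 : n < q * m := by exact_mod_cast h5
  have h8 := h3 (q * m) h7 (by push_cast; exact h6) q hq (Dvd.intro m rfl)
  push_cast at h8
  nlinarith

/-- There are `c > 0` and `X₀` such that for all `X ≥ X₀`, all integers `z ≥ 0` and all real `M ≥ 1`:
if `M ≤ log X / (log₂ X)⁴`, there are runs as in `Run` of the length
`W = c log X (log₂ X)² log₄ X / ((log₃ X)² (1 + log M))` and of the length `W = c log X log₂ X / log₃ X`;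
if `√(log X) ≤ M ≤ X^c`, there is one of the length `W = c (log X / log M) log (log X / log M)`. -/
theorem result : ∃ c : ℝ, 0 < c ∧ ∃ X₀ : ℝ, ∀ X : ℝ, X₀ ≤ X → ∀ (z : ℕ) (M : ℝ), 1 ≤ M →
    (M ≤ Real.log X / Real.log (Real.log X) ^ 4 →
      Run z X M (c * (Real.log X * (Real.log (Real.log X)) ^ 2 *
        Real.log (Real.log (Real.log (Real.log X))) /
          (Real.log (Real.log (Real.log X))) ^ 2 / (1 + Real.log M))) ∧
      Run z X M (c * (Real.log X * Real.log (Real.log X) / Real.log (Real.log (Real.log X))))) ∧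
    (Real.sqrt (Real.log X) ≤ M → M ≤ X ^ c →
      Run z X M (c * (Real.log X / Real.log M * Real.log (Real.log X / Real.log M)))) := by
  obtain ⟨c, hc, X₀, h⟩ := Pool.Agent.Y824.runs
  refine ⟨c, hc, X₀, fun X hX z M hM => ⟨fun h1 => ?_, fun h1 h2 => ?_⟩⟩
  · exact ⟨run_of ((h X hX z M hM).1 h1).1, run_of ((h X hX z M hM).1 h1).2⟩
  · exact run_of ((h X hX z M hM).2 h1 h2)

end Pool.Agent.Results.MP_028722_nt.PrimeFreeDilates
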