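import Pool.Agent.Y835.SF.RV7
import Pool.Agent.Y835.SF.RU3

set_option autoImplicit false

/-!
# The exact order of the number of primes left by the record method

Author: helper835. Write `L = log X`. Large gaps between primes come from nonnegative weights `w` on the integers
`X < n ≤ 3X` for which the mean of `π(n + U) - π(n)` is smaller than `1`. In all known constructions (Erdős,
Rankin, Maynard, Ford, Green, Konyagin, Maynard and Tao, and the starting files of this repository) the weight is
a sum of squares of functions of level `X` (a single class is a special case), and almost all primes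
`z < p ≤ L / 1000` divide `n` on its support, where `log z` is at most about `log₂ X log₄ X / log₃ X`. We consider
such weights which in addition are divisor bounded: `w(n) = ∑_q c_q(n mod W q)`, where `q ≤ X^(1/100)`, `W` is the
product of the primes `≤ L / 1000` (a few are omitted), and the coefficients are bounded by powers of `τ(q)` and
`log X` relative to the mass, as the weights of Maynard for a fixed number of factors.

(1) The mean of `π(n + U) - π(n)` is at least `c (U / L) min(1, log (U / L) / log z)`, as soon as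
`U min(1, log (U / L) / log z) ≥ C L log₃ X`.
(2) In particular it is at least `log₃ X` for all `U ≥ C L log₂ X log₄ X / log₃ X`, if `z` is of the size used
in the known constructions: this length, the best published bound for large gaps, is a limit for divisor bounded
weights, and only weights which are not divisor bounded can go beyond it (up to `L (log₂ X)² log₄ X / (log₃ X)²`,
see `RecordGaps` in the starting files and `MP_69be96_nt.RecordMethodLimit`).
(3) The order in (1) is exact: for all `U ≥ 2 L` and all such `z` some single class modulo `W` has mean at most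
`C (U / L) min(1, log (U / L) / log z)`. So in the range of (1) no weight of this kind is better than a single
class of Rankin, up to constants, and for `U ≥ L z` nothing at all is gained.

Proof of (1). Primes up to `exp(L / (log₂ X)⁴)`: on the support the survivors of the small primes are bounded
from below (`Pool.Agent.Y835.SF.Er`), and the number of survivors of the medium primes is too small only for a
proportion `exp(-c (log₂ X)³)` of all integers in every class modulo `W q` (a recursion for exponential moments,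
`RV2`, `RV3`); divisor bounded weights cannot see such a set. The remaining primes up to `X`: there are only
`C log₃ X` scales, and the level inequality for squares of functions of level `X` (`RV1`) bounds the loss. The
theorem of Bombieri and Vinogradov relative to the modulus `W` (starting files, helper378) in the form of
`Pool.Agent.Y829` (helper829) passes from there to the primes. (3): Rankin's choice of classes for every `z`
(`RU1`, `RU2`) and the theorem of Brun and Titchmarsh (helper602).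
-/

open Finset

namespace Pool.Agent.Results.MP_028722_nt.PrimesLeftByTheRecordMethod

/-- `log log X` -/
noncomputable def log2 (X : ℕ) : ℝ := Real.log (Real.log X)

/-- `log log log X` -/
noncomputable def log3 (X : ℕ) : ℝ := Real.log (log2 X)

/-- `log log log log X` -/
noncomputable def log4 (X : ℕ) : ℝ := Real.log (log3 X)

/-- `w` is a finite sum of squares of functions of level `X`: the periods `d ∈ D` satisfy `1 ≤ d ≤ X`, and
`w = ∑_j (∑_{d ∈ D} v_{j,d})²`, where `v_{j,d}` is a real function with period `d` -/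
def Squares (X : ℕ) (D : Finset ℕ) (w : ℕ → ℝ) : Prop :=
  (∀ d ∈ D, 1 ≤ d ∧ d ≤ X) ∧ ∃ (m : ℕ) (v : ℕ → ℕ → ℕ → ℝ),
    (∀ j, ∀ d ∈ D, ∀ n, v j d (n + d) = v j d n) ∧
    ∀ n, w n = ∑ j ∈ range m, (∑ d ∈ D, v j d n) ^ 2

/-- the factor `min(1, log(U / log X) / log z)` -/
noncomputable def gain (X U z : ℕ) : ℝ := min 1 (Real.log (U / Real.log X) / Real.log z)

/-- the modulus `W`: the product of the primes `p ≤ (log X) / 1000` outside of `S` and different from `p₁` -/
noncomputable def modulus (X : ℕ) (S : Finset ℕ) (p₁ : ℕ) : ℕ :=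
  ∏ p ∈ (Icc 1 ⌊Real.log X / 1000⌋₊).filter (fun p => p.Prime ∧ p ∉ S ∧ p ≠ p₁), p

/-- the omitted primes: at most one prime `p₁`, larger than `Z` (`p₁ = 1` if there is none), and the primes of
`S`, which are larger than `(log log X)^3` and have `∑ 1 / q ≤ 6 / (log log X)^2` -/
def Few (Z X : ℕ) (S : Finset ℕ) (p₁ : ℕ) : Prop :=
  (p₁ = 1 ∨ (p₁.Prime ∧ Z < p₁)) ∧ (∀ q ∈ S, q.Prime ∧ log2 X ^ 3 < q) ∧
    ∑ q ∈ S, (1 : ℝ) / q ≤ 6 / log2 X ^ 2

/-- the squarefree `q ≤ X^(1/100)` prime to `W p₁` -/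
noncomputable def levels (X : ℕ) (S : Finset ℕ) (p₁ : ℕ) : Finset ℕ :=
  (Icc 1 ⌊(X : ℝ) ^ (1 / 100 : ℝ)⌋₊).filter (fun q => Squarefree q ∧ q.Coprime (modulus X S p₁ * p₁))

/-- the weight `w(n) = ∑_q c_q(n mod W q)` -/
noncomputable def weight (X : ℕ) (S : Finset ℕ) (p₁ : ℕ) (c : ℕ → ℕ → ℝ) (n : ℕ) : ℝ :=
  ∑ q ∈ levels X S p₁, c q (n % (modulus X S p₁ * q))

/-- the sum of the weight over `X < n ≤ 3X` -/
noncomputable def mass (X : ℕ) (S : Finset ℕ) (p₁ : ℕ) (c : ℕ → ℕ → ℝ) : ℝ :=
  ∑ n ∈ Ioc X (3 * X), weight X S p₁ c n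

/-- the weight is divisor bounded relative to its mass: `∑_{a mod W q} |c_q(a)| ≤ M (τ(q) log X)^K`, and the mass
is at least `M X / (W (log X)^K)`. (For the indicator function of one class modulo `W` one can take `M = 1`.) -/
def Bounded (K X : ℕ) (S : Finset ℕ) (p₁ : ℕ) (c : ℕ → ℕ → ℝ) (M : ℝ) : Prop :=
  0 < M ∧ (∀ q ∈ levels X S p₁, ∑ a ∈ range (modulus X S p₁ * q), |c q a| ≤
      M * (q.divisors.card : ℝ) ^ K * Real.log X ^ K) ∧
    M * X / (modulus X S p₁ * Real.log X ^ K) ≤ mass X S p₁ c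

/-- `π(n + U) - π(n)` -/
noncomputable def primesIn (U n : ℕ) : ℝ := (((Ioc n (n + U)).filter Nat.Prime).card : ℝ)

/-- the weights of the record method with parameter `z`: divisor bounded sums of squares of level `X`, and all
primes `p > z` dividing `W` divide `n` on the support -/
def Record (K X z : ℕ) (S : Finset ℕ) (p₁ : ℕ) (c : ℕ → ℕ → ℝ) : Prop :=
  (∃ M : ℝ, Bounded K X S p₁ c M) ∧ (∃ D : Finset ℕ, Squares X D (weight X S p₁ c)) ∧
    ∀ n, weight X S p₁ c n ≠ 0 → ∀ p : ℕ, p.Prime → p ∣ modulus X S p₁ → z < p → p ∣ n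

/-- a vanishing sum of squares -/
theorem ne_of_ne {m : ℕ} {D : Finset ℕ} {w : ℕ → ℝ} {v : ℕ → ℕ → ℕ → ℝ}
    (hw : ∀ n, w n = ∑ j ∈ range m, (∑ d ∈ D, v j d n) ^ 2) {j : ℕ} (hj : j ∈ range m) {n : ℕ}
    (h : (∑ d ∈ D, v j d n) ≠ 0) : w n ≠ 0 := by
  rw [hw]
  have h1 : (∑ d ∈ D, v j d n) ^ 2 ≤ ∑ j ∈ range m, (∑ d ∈ D, v j d n) ^ 2 :=
    single_le_sum (f := fun j => (∑ d ∈ D, v j d n) ^ 2) (fun i _ => sq_nonneg _) hj
  have h2 : 0 < (∑ d ∈ D, v j d n) ^ 2 := by positivity
  linarith

/-- the product over the levels of the indicator function of a class -/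
theorem weight_single {X : ℕ} (hX : 1 ≤ X) (S : Finset ℕ) (p₁ a n : ℕ) :
    weight X S p₁ (fun q r => if q = 1 ∧ r = a then 1 else 0) n =
      if n % modulus X S p₁ = a then 1 else 0 := by
  unfold weight
  have h1 : 1 ∈ levels X S p₁ := by
    unfold levels
    rw [mem_filter, mem_Icc]
    refine ⟨⟨le_rfl, ?_⟩, squarefree_one, Nat.coprime_one_left _⟩
    refine Nat.le_floor ?_
    rw [Nat.cast_one]
    exact Real.one_le_rpow (by exact_mod_cast hX) (by norm_num)
  rw [sum_eq_single_of_mem 1 h1]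
  · rw [mul_one]
    simp
  · intro q _ hq
    beta_reduce
    rw [if_neg (fun h => hq h.1)]

/-- (2) from (1) -/
theorem ev_rec (c₀ C : ℝ) (hc₀ : 0 < c₀) (hC : 0 < C) : ∃ l₀ : ℝ, ∀ l : ℝ, l₀ ≤ l → ∀ L U lz : ℝ, 0 < L →
    0 < lz → lz ≤ l * Real.log (Real.log l) / Real.log l →
    (2 * C + 2 / c₀ + 1) * (L * l * Real.log (Real.log l) / Real.log l) ≤ U →
    lz ≤ c₀ * l ∧ C * (Real.log l * L) ≤ U * min 1 (Real.log (U / L) / lz) ∧
      Real.log l ≤ c₀ * (U * min 1 (Real.log (U / L) / lz) / L) := by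
  have hlog : ∀ᶠ l : ℝ in Filter.atTop, 4 ≤ Real.log l ∧ 1 ≤ Real.log (Real.log l) ∧
      Real.log (Real.log l) ≤ c₀ * Real.log l ∧ Real.log l ≤ l := by
    have t1 := Real.tendsto_log_atTop
    have h1 : ∀ᶠ x : ℝ in Filter.atTop, Real.log x ≤ c₀ * x := by
      have h2 := (Real.isLittleO_log_id_atTop).def hc₀
      filter_upwards [h2, Filter.eventually_ge_atTop (1 : ℝ)] with x h3 h4
      rw [Real.norm_of_nonneg (Real.log_nonneg h4), id, Real.norm_of_nonneg (by linarith)] at h3
      exact h3
    filter_upwards [t1.eventually_ge_atTop 4, (t1.comp t1).eventually_ge_atTop 1, t1.eventually h1,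
      Filter.eventually_gt_atTop (0 : ℝ)] with l a1 a2 a3 a4
    refine ⟨a1, a2, a3, ?_⟩
    have := Real.log_le_sub_one_of_pos a4
    linarith
  obtain ⟨l₀, hl₀⟩ := Filter.eventually_atTop.1 hlog
  refine ⟨max l₀ 1, fun l hl L U lz hL hlz hlz1 hU => ?_⟩
  obtain ⟨g1, g2, g3, g4⟩ := hl₀ l ((le_max_left _ _).trans hl)
  have hl1 : 1 ≤ l := (le_max_right _ _).trans hl
  obtain ⟨a, ha⟩ : ∃ a : ℝ, a = Real.log l := ⟨_, rfl⟩
  rw [← ha] at g1 g2 g3 g4 hlz1 hU ⊢
  obtain ⟨b, hb⟩ : ∃ b : ℝ, b = Real.log a := ⟨_, rfl⟩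
  rw [← hb] at g2 g3 hlz1 hU
  have ha0 : 0 < a := by linarith
  have hb0 : 0 < b := by linarith
  have hl0 : 0 < l := by linarith
  obtain ⟨φ, hφ⟩ : ∃ φ : ℝ, φ = l * b / a := ⟨_, rfl⟩
  have hφ0 : 0 < φ := by rw [hφ]; positivity
  have e1 : L * l * b / a = L * φ := by rw [hφ]; ring
  rw [e1] at hU
  rw [← hφ] at hlz1
  have hca : 0 < 2 / c₀ := by positivity
  have hU1 : φ * L ≤ U := by
    refine le_trans ?_ hU
    have : 1 * (L * φ) ≤ (2 * C + 2 / c₀ + 1) * (L * φ) :=
      mul_le_mul_of_nonneg_right (by linarith) (by positivity)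
    linarith
  have hU0 : 0 < U := lt_of_lt_of_le (by positivity) hU1
  have hlogφ : a / 2 ≤ Real.log (U / L) := by
    have h1 : Real.log φ ≤ Real.log (U / L) := by
      refine Real.log_le_log hφ0 ?_
      rw [le_div_iff₀ hL]
      exact hU1
    have h2 : a - b ≤ Real.log φ := by
      have h3 : l / a ≤ φ := by
        rw [hφ]
        refine div_le_div_of_nonneg_right ?_ ha0.le
        exact le_mul_of_one_le_right hl0.le g2
      have h4 := Real.log_le_log (by positivity) h3
      rw [Real.log_div hl0.ne' ha0.ne', ← ha, ← hb] at h4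
      exact h4
    have h3 : b ≤ a / 2 := by
      rw [hb]
      have h4 := Real.add_one_le_exp (Real.log a / 2)
      have h5 : Real.log a = 2 * Real.log (√a) := by
        rw [Real.log_sqrt ha0.le]; ring
      have h6 := Real.log_le_sub_one_of_pos (show 0 < √a by positivity)
      have h7 : √a * √a = a := Real.mul_self_sqrt ha0.le
      have h8 : 2 ≤ √a := by
        rw [show (2 : ℝ) = √4 by rw [show (4 : ℝ) = 2 ^ 2 by norm_num]; exact (Real.sqrt_sq (by norm_num)).symm]
        exact Real.sqrt_le_sqrt g1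
      nlinarith only [h5, h6, h7, h8]
    linarith
  have hmin : a / 2 / φ ≤ min 1 (Real.log (U / L) / lz) ∨ 1 ≤ min 1 (Real.log (U / L) / lz) := by
    rcases le_total 1 (Real.log (U / L) / lz) with h | h
    · right
      exact le_min le_rfl h
    · left
      rw [min_eq_right h]
      exact div_le_div₀ (by linarith) hlogφ hlz hlz1
  have haφ : a / 2 ≤ φ := by
    rw [hφ, le_div_iff₀ ha0]
    have h1 : a ≤ l := g4
    have h2 : a * a ≤ l * 1 * 2 := by
      have h3 := Real.quadratic_le_exp_of_nonneg ha0.le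
      have h4 : Real.exp a = l := by rw [ha]; exact Real.exp_log hl0
      rw [h4] at h3
      nlinarith only [h3, ha0]
    have h3 : l * 1 ≤ l * b := mul_le_mul_of_nonneg_left g2 hl0.le
    linarith
  have hUm : (2 * C + 2 / c₀) * (L * (a / 2)) ≤ U * min 1 (Real.log (U / L) / lz) := by
    have hU2 : (2 * C + 2 / c₀) * (L * φ) ≤ U := by
      refine le_trans ?_ hU
      exact mul_le_mul_of_nonneg_right (by linarith) (by positivity)
    rcases hmin with h | h
    · calc (2 * C + 2 / c₀) * (L * (a / 2)) = (2 * C + 2 / c₀) * (L * φ) * (a / 2 / φ) := by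
            field_simp
        _ ≤ U * min 1 (Real.log (U / L) / lz) := mul_le_mul hU2 h (by positivity) hU0.le
    · calc (2 * C + 2 / c₀) * (L * (a / 2)) ≤ (2 * C + 2 / c₀) * (L * φ) :=
            mul_le_mul_of_nonneg_left (mul_le_mul_of_nonneg_left haφ hL.le) (by positivity)
        _ ≤ U * 1 := by rw [mul_one]; exact hU2
        _ ≤ U * min 1 (Real.log (U / L) / lz) := mul_le_mul_of_nonneg_left h hU0.le
  refine ⟨?_, ?_, ?_⟩
  · refine hlz1.trans ?_
    rw [hφ, div_le_iff₀ ha0]
    calc l * b ≤ l * (c₀ * a) := mul_le_mul_of_nonneg_left g3 hl0.le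
      _ = c₀ * l * a := by ring
  · refine le_trans ?_ hUm
    have h1 : 0 ≤ 2 / c₀ * (L * (a / 2)) := by positivity
    linarith
  · have h1 : 2 / c₀ * (L * (a / 2)) ≤ U * min 1 (Real.log (U / L) / lz) := by
      refine le_trans ?_ hUm
      exact mul_le_mul_of_nonneg_right (by linarith) (by positivity)
    have h2 : a = c₀ * (2 / c₀ * (L * (a / 2)) / L) := by field_simp
    calc a = c₀ * (2 / c₀ * (L * (a / 2)) / L) := h2
      _ ≤ c₀ * (U * min 1 (Real.log (U / L) / lz) / L) :=
        mul_le_mul_of_nonneg_left (div_le_div_of_nonneg_right h1 hL.le) hc₀.le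

/-- (1) The lower bound for all weights of the record method, (2) its consequence for the known sizes of `z`,
and (3) the upper bound for some weights of the record method, namely single classes modulo `W`. -/
theorem result : ∃ c C : ℝ, 0 < c ∧ 0 < C ∧ ∀ K Z : ℕ, ∃ X₀ : ℕ, ∀ X : ℕ, X₀ ≤ X →
    ∃ (S : Finset ℕ) (p₁ : ℕ), Few Z X S p₁ ∧
      (∀ (U z : ℕ) (w : ℕ → ℕ → ℝ), log2 X ^ 2 ≤ z → (z : ℝ) ≤ Real.log X ^ c →
        (U : ℝ) ≤ (X : ℝ) ^ (9 / 10 : ℝ) → Record K X z S p₁ w →
        C * (Real.log X * log3 X) ≤ U * gain X U z →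
        c * (U * gain X U z / Real.log X) * mass X S p₁ w ≤
          ∑ n ∈ Ioc X (3 * X), weight X S p₁ w n * primesIn U n) ∧
      (∀ (U z : ℕ) (w : ℕ → ℕ → ℝ), log2 X ^ 2 ≤ z → Real.log z ≤ log2 X * log4 X / log3 X →
        (U : ℝ) ≤ (X : ℝ) ^ (9 / 10 : ℝ) → Record K X z S p₁ w →
        C * (Real.log X * log2 X * log4 X / log3 X) ≤ U →
        log3 X * mass X S p₁ w ≤ ∑ n ∈ Ioc X (3 * X), weight X S p₁ w n * primesIn U n) ∧
      (∀ U z : ℕ, log2 X ^ 2 ≤ z → Real.log z ≤ log2 X * log4 X / (40 * log3 X) →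
        2 * Real.log X ≤ U → ∃ a : ℕ, ∃ w : ℕ → ℕ → ℝ, Record K X z S p₁ w ∧
          (∀ n, weight X S p₁ w n = if n % modulus X S p₁ = a then 1 else 0) ∧
          ∑ n ∈ Ioc X (3 * X), weight X S p₁ w n * primesIn U n ≤
            C * (U * gain X U z / Real.log X) * mass X S p₁ w) := by
  obtain ⟨c₀, C, hc₀, hc₀1, hC, H⟩ := Pool.Agent.Y835.SV.lowerP3
  obtain ⟨CU, hCU, X1, HU⟩ := Pool.Agent.Y835.SU.upper
  obtain ⟨l₀, hev⟩ := ev_rec c₀ C hc₀ hC
  refine ⟨c₀, max (2 * C + 2 / c₀ + 1) CU, hc₀, lt_max_of_lt_right hCU, fun K Z => ?_⟩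
  have hCle : C ≤ max (2 * C + 2 / c₀ + 1) CU := by
    refine le_trans ?_ (le_max_left _ _)
    have : 0 < 2 / c₀ := by positivity
    linarith
  obtain ⟨X0, H⟩ := H K Z
  have hN := tendsto_natCast_atTop_atTop (R := ℝ)
  have t1 := Real.tendsto_log_atTop
  obtain ⟨X2, hX2⟩ := ((hN.eventually ((t1.comp t1).eventually_ge_atTop (max l₀ 4))).and
    (hN.eventually (t1.eventually_ge_atTop 1))).exists_forall_of_atTop
  refine ⟨max (max X0 X1) (max X2 1), fun X hX => ?_⟩
  have hX1 : 1 ≤ X := (le_max_right _ _).trans ((le_max_right _ _).trans hX)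
  obtain ⟨g0, hL1⟩ := hX2 X ((le_max_left _ _).trans ((le_max_right _ _).trans hX))
  simp only [Function.comp] at g0
  have hl₀ : l₀ ≤ log2 X := (le_max_left _ _).trans g0
  have hl4 : 4 ≤ log2 X := (le_max_right _ _).trans g0
  have hL0 : 0 < Real.log X := by linarith
  have ha0 : 0 < log3 X := Real.log_pos (by linarith)
  have hX0' : (0 : ℝ) < X := by exact_mod_cast hX1
  obtain ⟨ps, S, g1, g2, H⟩ := H X ((le_max_left _ _).trans ((le_max_left _ _).trans hX))
  have HU' := HU X ((le_max_right _ _).trans ((le_max_left _ _).trans hX)) Z ps S g1 g2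
  -- the lower bound
  have hlow : ∀ (U z : ℕ) (w : ℕ → ℕ → ℝ), log2 X ^ 2 ≤ z → (z : ℝ) ≤ Real.log X ^ c₀ →
        (U : ℝ) ≤ (X : ℝ) ^ (9 / 10 : ℝ) → Record K X z S ps w →
        C * (Real.log X * log3 X) ≤ U * gain X U z →
        c₀ * (U * gain X U z / Real.log X) * mass X S ps w ≤
          ∑ n ∈ Ioc X (3 * X), weight X S ps w n * primesIn U n := by
    intro U z w hz hzL hUX hw hlong
    obtain ⟨⟨M, k1, k2, k3⟩, ⟨D, hD, m, v, hv, hwv⟩, hsupp⟩ := hw
    have h := H U z hz hzL hUX (gain X U z) rfl (by rw [mul_comm (Real.log (Real.log (Real.log X)))]; exact hlong)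
      w M (range m) (fun _ => D) (fun _ d => d) v k1 k2 k3
      (fun j _ d hd => ⟨(hD d hd).1, (hD d hd).2, hv j d hd⟩) hwv (fun j hj n hn p hp hzp =>
        hsupp n (ne_of_ne hwv hj hn) p (Pool.Agent.H378R2.mem_PW.1 hp).2.1
          (dvd_prod_of_mem (fun p => p) hp) hzp)
    rw [mul_assoc]
    exact h
  refine ⟨S, ps, ⟨g1, fun q hq => ?_, g2.2⟩, ?_, ?_, ?_⟩
  · obtain ⟨a1, a2, -⟩ := g2.1 q hq
    refine ⟨a1, ?_⟩
    unfold Pool.Agent.H378R2.z2 at a2
    exact (Nat.le_ceil _).trans_lt (by exact_mod_cast a2)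
  · intro U z w hz hzL hUX hw hlong
    exact hlow U z w hz hzL hUX hw ((mul_le_mul_of_nonneg_right hCle (by positivity)).trans hlong)
  · intro U z w hz hlz hUX hw hlong
    have hz16 : (16 : ℝ) ≤ z := by
      calc (16 : ℝ) = 4 ^ 2 := by norm_num
        _ ≤ log2 X ^ 2 := pow_le_pow_left₀ (by norm_num) hl4 2
        _ ≤ z := hz
    have hlz0 : 0 < Real.log z := Real.log_pos (by linarith)
    have hb0 : 0 < log4 X := by
      by_contra hcon
      have h1 : log2 X * log4 X / log3 X ≤ 0 :=
        div_nonpos_of_nonpos_of_nonneg (mul_nonpos_of_nonneg_of_nonpos (by linarith)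
          (not_lt.1 hcon)) ha0.le
      linarith
    obtain ⟨e1, e2, e3⟩ := hev (log2 X) hl₀ (Real.log X) U (Real.log z) hL0 hlz0 hlz (by
      refine le_trans ?_ hlong
      refine mul_le_mul_of_nonneg_right (le_max_left _ _) ?_
      have : 0 < log2 X := by linarith
      positivity)
    have hzL : (z : ℝ) ≤ Real.log X ^ c₀ := by
      rw [← Real.log_le_log_iff (by linarith) (by positivity), Real.log_rpow hL0]
      exact e1
    have h1 := hlow U z w hz hzL hUX hw (by rw [mul_comm (Real.log X)]; exact e2)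
    refine le_trans (mul_le_mul_of_nonneg_right e3 ?_) h1
    obtain ⟨⟨M, k1, k2, k3⟩, -, -⟩ := hw
    refine le_trans ?_ k3
    positivity
  · intro U z hz hlz hU
    obtain ⟨a, ha, hpa, hlow', hup⟩ := HU' U z hz hlz hU
    have hwt := weight_single hX1 S ps a
    have hW0 : 0 < modulus X S ps := Pool.Agent.H378R2.WW_pos (X : ℝ) S ps
    have hWr : (0 : ℝ) < modulus X S ps := by exact_mod_cast hW0
    have hmass : mass X S ps (fun q r => if q = 1 ∧ r = a then 1 else 0) =
        (((Ioc X (3 * X)).filter (fun n => n % modulus X S ps = a)).card : ℝ) := by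
      unfold mass
      rw [sum_congr rfl fun n _ => hwt n, sum_boole]
    refine ⟨a, fun q r => if q = 1 ∧ r = a then 1 else 0, ⟨⟨1, one_pos, ?_, ?_⟩,
      ⟨{modulus X S ps}, ?_, 1, fun _ d n => if n % modulus X S ps = a then 1 else 0, ?_, ?_⟩, ?_⟩,
      hwt, ?_⟩
    · intro q hq
      have hq1 : 1 ≤ q := by
        unfold levels at hq
        exact (mem_Icc.1 (mem_filter.1 hq).1).1
      have h1 : (1 : ℝ) ≤ (q.divisors.card : ℝ) := by
        have : 0 < q.divisors.card := Finset.card_pos.2 ⟨1, Nat.one_mem_divisors.2 (by omega)⟩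
        exact_mod_cast this
      have h2 : (1 : ℝ) ≤ 1 * (q.divisors.card : ℝ) ^ K * Real.log X ^ K := by
        rw [one_mul]
        exact one_le_mul_of_one_le_of_one_le (one_le_pow₀ h1) (one_le_pow₀ hL1)
      refine le_trans ?_ h2
      have h3 : ∀ r ∈ range (modulus X S ps * q), |(if q = 1 ∧ r = a then (1 : ℝ) else 0)| ≤
          if r = a then 1 else 0 := by
        intro r _
        by_cases h4 : r = a
        · by_cases h5 : q = 1 <;> simp [h4, h5]
        · simp [h4]
      refine (sum_le_sum h3).trans ?_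
      rw [sum_boole]
      have h4 : ((range (modulus X S ps * q)).filter (fun r => r = a)).card ≤ 1 := by
        rw [card_le_one]
        intro i hi j hj
        rw [mem_filter] at hi hj
        rw [hi.2, hj.2]
      exact_mod_cast h4
    · rw [hmass]
      refine le_trans ?_ hlow'
      rw [one_mul]
      refine div_le_div_of_nonneg_left hX0'.le hWr ?_
      exact le_mul_of_one_le_right hWr.le (one_le_pow₀ hL1)
    · intro d hd
      rw [mem_singleton] at hd
      rw [hd]
      refine ⟨hW0, ?_⟩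
      have h1 := Pool.Agent.Y835.SU.WW_le X hX1 S ps
      have h2 : (modulus X S ps : ℝ) ≤ X := by
        refine le_trans h1 ?_
        calc (X : ℝ) ^ (1 / 500 : ℝ) ≤ (X : ℝ) ^ (1 : ℝ) :=
              Real.rpow_le_rpow_of_exponent_le (by exact_mod_cast hX1) (by norm_num)
          _ = X := Real.rpow_one _
      exact_mod_cast h2
    · intro _ d hd n
      rw [mem_singleton] at hd
      beta_reduce
      rw [hd, Nat.add_mod_right]
    · intro n
      rw [hwt]
      simp
    · intro n hn p hp hpW hzp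
      have hn' : n % modulus X S ps = a := by
        rw [hwt] at hn
        by_contra h
        rw [if_neg h] at hn
        exact hn rfl
      have hpPW : p ∈ Pool.Agent.H378R2.PW X S ps := by
        have h1 : p ∈ (modulus X S ps).primeFactors := Nat.mem_primeFactors.2 ⟨hp, hpW, hW0.ne'⟩
        have h2 := Pool.Agent.H378R2.WW_primeFactors (X : ℝ) S ps
        unfold modulus at h1
        unfold Pool.Agent.H378R2.WW at h2
        have h3 : (∏ p ∈ (Icc 1 ⌊Real.log X / 1000⌋₊).filter (fun p => p.Prime ∧ p ∉ S ∧ p ≠ ps), p) =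
          ∏ p ∈ Pool.Agent.H378R2.PW X S ps, p := rfl
        rw [h3, h2] at h1
        exact h1
      have h1 := hpa p hpPW hzp
      have h2 := Nat.mod_add_div n (modulus X S ps)
      rw [hn'] at h2
      rw [← h2]
      exact (Nat.dvd_add_right h1).2 (hpW.mul_right _)
    · have h1 : ∑ n ∈ Ioc X (3 * X), weight X S ps (fun q r => if q = 1 ∧ r = a then 1 else 0) n *
          primesIn U n = ∑ n ∈ (Ioc X (3 * X)).filter (fun n => n % modulus X S ps = a),
          primesIn U n := by
        rw [sum_filter]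
        refine sum_congr rfl fun n _ => ?_
        rw [hwt]
        split_ifs
        · rw [one_mul]
        · rw [zero_mul]
      rw [h1, hmass]
      refine hup.trans ?_
      refine mul_le_mul_of_nonneg_right ?_ (Nat.cast_nonneg _)
      refine mul_le_mul_of_nonneg_right (le_max_right _ _) ?_
      have hz0 : 0 ≤ Real.log (z : ℝ) := Real.log_natCast_nonneg z
      refine div_nonneg (mul_nonneg (Nat.cast_nonneg _) (le_min zero_le_one (div_nonneg ?_ hz0))) hL0.le
      refine Real.log_nonneg ?_
      rw [le_div_iff₀ hL0]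
      linarith

end Pool.Agent.Results.MP_028722_nt.PrimesLeftByTheRecordMethod
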