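import Pool.Agent.Y829.RW3
import Pool.Agent.Y829.RZ6

set_option autoImplicit false

/-!
# The method of Erdős, Rankin and Maynard stops at `(log X)^2`: sieve weights over the record modulus

Author: helper829. All large gaps between primes are produced in one way: one fixes `n` in a residue class
modulo the product `W` of (almost) all primes up to a multiple of `log X`, chosen so that most of the
`n + h`, `h ≤ U`, have a small prime factor, puts a nonnegative sieve weight on this class (Maynard;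
Ford, Green, Konyagin, Maynard, Tao), and compares the mean of `π(n + U) - π(n)` with `1`. We prove, for the
primes themselves, that for `U ≥ (log X)^A`, `A > 2`, no class, and more generally no nonnegative weight of the
form `∑ c_q(n mod W q)`, `q ≤ X^(1/100)`, makes this mean smaller than `c(A) U / log X`; and that for large `A`
the mean is within `exp(-(1 - ε) A log A)` of its expected value. This rate is sharp: Maier's matrices have rows of
this kind, and Hildebrand and Maier found irregularities of the size `exp(-(1 + o(1)) A log A)` in this way.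

Proof. The starting files contain the theorem of Bombieri and Vinogradov relative to the modulus `W`
(`Pool.Agent.H378R2`, helper378). It turns the weighted number of primes into the mean over a period of the
weighted number of integers free of the primes up to the level; there the small primes are treated by the linear
sieve (resp. the fundamental lemma) in every interval and the large ones by exponential moments, as in
`Pool.Agent.Y829` (`main`, `RZ.conS`). For the sharp rate we prove the fundamental lemma for windows of length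
`z^s` with the error `B κ^s / s!` (`RZ.fl`), by iterating Buchstab's identity from an exponentially small error; the
primes between `z = U^(1/s)`, `s` the largest integer below `A`, and the level are treated by exponential moments in
two ranges, outside of a set of residues of density `exp(-3 log X)`.
-/

open Finset

namespace Pool.Agent.Results.MP_028722_nt.WeightsOverTheRecordModulus

/-- the modulus `W`: the product of the primes `p ≤ (log X) / 1000` outside of `S` and different from `p₁` -/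
noncomputable def modulus (X : ℕ) (S : Finset ℕ) (p₁ : ℕ) : ℕ :=
  ∏ p ∈ (Icc 1 ⌊Real.log X / 1000⌋₊).filter (fun p => p.Prime ∧ p ∉ S ∧ p ≠ p₁), p

/-- the omitted primes: at most one prime `p₁`, larger than `Z` (`p₁ = 1` if there is none), and the primes of
`S`, which are larger than `(log log X)^3` and have `∑ 1 / q ≤ 6 / (log log X)^2` -/
def Few (Z X : ℕ) (S : Finset ℕ) (p₁ : ℕ) : Prop :=
  (p₁ = 1 ∨ (p₁.Prime ∧ Z < p₁)) ∧ (∀ q ∈ S, q.Prime ∧ Real.log (Real.log X) ^ 3 < q) ∧
    ∑ q ∈ S, (1 : ℝ) / q ≤ 6 / Real.log (Real.log X) ^ 2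

/-- the squarefree `q ≤ X^(1/100)` prime to `W p₁` -/
noncomputable def levels (X : ℕ) (S : Finset ℕ) (p₁ : ℕ) : Finset ℕ :=
  (Icc 1 ⌊(X : ℝ) ^ (1 / 100 : ℝ)⌋₊).filter (fun q => Squarefree q ∧ q.Coprime (modulus X S p₁ * p₁))

/-- the weight `w(n) = ∑_q c_q(n mod W q)` -/
noncomputable def weight (X : ℕ) (S : Finset ℕ) (p₁ : ℕ) (c : ℕ → ℕ → ℝ) (n : ℕ) : ℝ :=
  ∑ q ∈ levels X S p₁, c q (n % (modulus X S p₁ * q))

/-- the sum of the weight over `X < n ≤ 3X` -/
noncomputable def mass (X : ℕ) (S : Finset ℕ) (p₁ : ℕ) (c : ℕ → ℕ → ℝ) : ℝ :=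
  ∑ n ∈ Ioc X (3 * X), weight X S p₁ c n

/-- `w` is nonnegative, `∑_{a mod W q} |c_q(a)| ≤ M (τ(q) log X)^K`, and the mass is at least
`M X / (W (log X)^K)`. (For the indicator function of one class modulo `W` one can take `M = 1`.) -/
def Good (K X : ℕ) (S : Finset ℕ) (p₁ : ℕ) (c : ℕ → ℕ → ℝ) (M : ℝ) : Prop :=
  0 < M ∧ (∀ n, 0 ≤ weight X S p₁ c n) ∧
    (∀ q ∈ levels X S p₁, ∑ a ∈ range (modulus X S p₁ * q), |c q a| ≤
      M * (q.divisors.card : ℝ) ^ K * Real.log X ^ K) ∧
    M * X / (modulus X S p₁ * Real.log X ^ K) ≤ mass X S p₁ c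

/-- `π(n + U) - π(n)` -/
noncomputable def primesIn (U n : ℕ) : ℝ := (((Ioc n (n + U)).filter Nat.Prime).card : ℝ)

/-- the tent function of `log u`, supported on `[1, e]` -/
noncomputable def tent (u : ℝ) : ℝ := max 0 (1 / 2 - |Real.log u - 1 / 2|)

/-- `tent(m / X) log m` if `m` is prime, and `0` otherwise -/
noncomputable def logPrime (X m : ℕ) : ℝ := if m.Prime then tent (m / (X : ℝ)) * Real.log m else 0

/-- (1) For every `A > 2` there is `c₀ > 0` such that for all `K`, `Z` and large `X` there is a modulus `W` as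
above for which the weighted mean of `π(n + U) - π(n)` over `X < n ≤ 3X` is at least `c₀ U / log X`, for all
`(log X)^A ≤ U ≤ X^(9/10)` and all weights `w` as above. (2) For every `ε > 0` there is `A₁` such that for `A ≥ A₁`
the number of primes, counted with `tent(p / X) log p`, is within `exp(-(1 - ε) A log A)` of its expected value. -/
theorem result :
    (∀ A : ℝ, 2 < A → ∃ c₀ : ℝ, 0 < c₀ ∧ ∀ K Z : ℕ, ∃ X₀ : ℕ, ∀ X : ℕ, X₀ ≤ X →
      ∃ (S : Finset ℕ) (p₁ : ℕ), Few Z X S p₁ ∧ ∀ (U : ℕ) (c : ℕ → ℕ → ℝ) (M : ℝ),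
        Real.log X ^ A ≤ U → (U : ℝ) ≤ (X : ℝ) ^ (9 / 10 : ℝ) → Good K X S p₁ c M →
        c₀ * (U / Real.log X) * mass X S p₁ c ≤ ∑ n ∈ Ioc X (3 * X), weight X S p₁ c n * primesIn U n) ∧
    (∀ ε : ℝ, 0 < ε → ∃ A₁ : ℝ, ∀ A : ℝ, A₁ ≤ A → ∀ K Z : ℕ, ∃ X₀ : ℕ, ∀ X : ℕ, X₀ ≤ X →
      ∃ (S : Finset ℕ) (p₁ : ℕ), Few Z X S p₁ ∧ ∀ (U : ℕ) (c : ℕ → ℕ → ℝ) (M : ℝ),
        Real.log X ^ A ≤ U → (U : ℝ) ≤ (X : ℝ) ^ (9 / 10 : ℝ) → Good K X S p₁ c M →
        |∑ n ∈ Icc 1 (3 * X), weight X S p₁ c n * ∑ h ∈ Icc 1 U, logPrime X (n + h) -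
          U * ∑ n ∈ Icc 1 (3 * X), weight X S p₁ c n * tent (n / (X : ℝ))| ≤
          Real.exp (-((1 - ε) * (A * Real.log A))) * (U * ∑ n ∈ Icc 1 (3 * X), weight X S p₁ c n * tent (n / (X : ℝ)))) := by
  have hfew : ∀ (Z X : ℕ) (S : Finset ℕ) (ps : ℕ), Pool.Agent.H378R2.GoodP Z ps →
      Pool.Agent.H378R2.GoodS X S → Few Z X S ps := by
    intro Z X S ps h1 h2
    refine ⟨h1, fun q hq => ?_, h2.2⟩
    obtain ⟨a1, a2, -⟩ := h2.1 q hq
    refine ⟨a1, ?_⟩
    unfold Pool.Agent.H378R2.z2 at a2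
    exact (Nat.le_ceil _).trans_lt (by exact_mod_cast a2)
  constructor
  · intro A hA
    obtain ⟨c₀, hc₀, h⟩ := Pool.Agent.Y829.RW.lower A hA
    refine ⟨c₀, hc₀, fun K Z => ?_⟩
    obtain ⟨X₀, h1⟩ := h K Z
    refine ⟨X₀, fun X hX => ?_⟩
    obtain ⟨ps, S, g1, g2, h2⟩ := h1 X hX
    refine ⟨S, ps, hfew Z X S ps g1 g2, ?_⟩
    intro U c M hU hUX hg
    obtain ⟨k1, k2, k3, k4⟩ := hg
    have h3 := h2 U hU hUX c M k1 k2 k3 k4
    rw [mul_assoc]
    exact h3
  · intro ε hε
    obtain ⟨A₁, h⟩ := Pool.Agent.Y829.RZ.sharp ε hε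
    refine ⟨A₁, fun A hA K Z => ?_⟩
    obtain ⟨X₀, h1⟩ := h A hA K Z
    refine ⟨X₀, fun X hX => ?_⟩
    obtain ⟨ps, S, g1, g2, h2⟩ := h1 X hX
    refine ⟨S, ps, hfew Z X S ps g1 g2, ?_⟩
    intro U c M hU hUX hg
    obtain ⟨k1, k2, k3, k4⟩ := hg
    exact h2 U hU hUX c M k1 k2 k3 k4

end Pool.Agent.Results.MP_028722_nt.WeightsOverTheRecordModulus
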